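import Pool.Agent.Helper19.Disc.Galois

/-!
# The discriminant criterion: main part
-/

open Polynomial Finset

namespace Pool.Agent.Helper19.Disc

/-- The roots of `P` in `L`, as a type. -/
def Rt {E : Type} [Field E] (L : Type) [Field L] [Algebra E L] (P : E[X]) : Type :=
  {β : L // β ∈ roots P L}

section

variable {E L : Type} [Field E] [Field L] [Algebra E L] {I : Type}

noncomputable instance (P : E[X]) : Fintype (Rt L P) :=
  inferInstanceAs (Fintype {β : L // β ∈ roots P L})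

/-- The Galois action on the roots. -/
def actRt {P : E[X]} (hP : P ≠ 0) : MulAction (L ≃ₐ[E] L) (Rt L P) where
  smul σ x := ⟨σ x.1, stab_roots hP σ x.2⟩
  one_smul _ := rfl
  mul_smul _ _ _ := rfl

/-- The Galois action on the disjoint union of sets of roots. -/
def actSigma {Q : I → E[X]} (hQ : ∀ i, Q i ≠ 0) :
    MulAction (L ≃ₐ[E] L) (Σ i, Rt L (Q i)) where
  smul σ x := ⟨x.1, ⟨σ x.2.1, stab_roots (hQ x.1) σ x.2.2⟩⟩
  one_smul _ := rfl
  mul_smul _ _ _ := rfl

theorem exists_conj [FiniteDimensional E L] [IsGalois E L] {P : E[X]} (hP : Irreducible P)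
    (x y : Rt L P) : ∃ σ : L ≃ₐ[E] L, σ x.1 = y.1 := by
  have e1 := minpoly.eq_of_irreducible hP ((mem_roots' hP.ne_zero).1 x.2)
  have e2 := minpoly.eq_of_irreducible hP ((mem_roots' hP.ne_zero).1 y.2)
  have h4 : IsConjRoot E y.1 x.1 := by
    rw [IsConjRoot, ← e1, ← e2]
  obtain ⟨σ, hσ⟩ := isConjRoot_iff_exists_algEquiv.1 h4
  exact ⟨σ, hσ⟩

/-- A Sylow 2-subgroup of the Galois group is transitive on the roots of an irreducible polynomial
of 2-power degree. -/
theorem sylow_conj [CharZero E] [FiniteDimensional E L] [IsGalois E L] {P : E[X]}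
    (hP : Irreducible P)
    (hsplit : (P.map (algebraMap E L)).Splits) {k : ℕ} (hdeg : P.natDegree = 2 ^ k)
    (Sy : Sylow 2 (L ≃ₐ[E] L)) (x y : Rt L P) : ∃ σ ∈ Sy, σ x.1 = y.1 := by
  letI := actRt (L := L) hP.ne_zero
  haveI : MulAction.IsPretransitive (L ≃ₐ[E] L) (Rt L P) := by
    refine ⟨fun a b => ?_⟩
    obtain ⟨σ, hσ⟩ := exists_conj hP a b
    exact ⟨σ, Subtype.ext hσ⟩
  have hcard : Nat.card (Rt L P) = 2 ^ k := by
    rw [← hdeg, ← (roots_map_eq hP hsplit).2, Nat.card_eq_fintype_card]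
    exact Fintype.card_coe (roots P L)
  obtain ⟨σ, hσ, h⟩ := Pool.Agent.Helper66.NT.sylow_transitive hcard Sy x y
  exact ⟨σ, hσ, congrArg Subtype.val h⟩

end

end Pool.Agent.Helper19.Disc
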