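import Pool.Agent.Helper66.NT.Half

/-!
# A 2-group acting on a set with an involution: relations with odd coefficients

`U` is an odd-valued integral function with `U (ι x) = - U x`. If a nonzero odd function `m₀`
satisfies `∑ m₀ x * U (g x) = 0` for all `g` in the 2-group `P`, there is a nonempty stable set `Y`
on which every `g ∈ P` acts evenly (the number of `x ∈ Y` with `U x > 0`, `U (g x) < 0` is even).
-/

open Finset

namespace Pool.Agent.Helper19.Disc

section fixed

variable {P S : Type} [Group P] [MulAction P S]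

theorem exists_fixed [Finite P] [Finite S] (hP : IsPGroup 2 P) (W : AddSubgroup (S → ZMod 2))
    (hstab : ∀ m ∈ W, ∀ g : P, (fun x => m (g • x)) ∈ W) {m₀ : S → ZMod 2} (hm₀ : m₀ ∈ W)
    (h0 : m₀ ≠ 0) : ∃ w ∈ W, w ≠ 0 ∧ ∀ (g : P) (x : S), w (g • x) = w x := by
  classical
  let act : MulAction P W :=
    { smul := fun g w => ⟨fun x => w.1 (g⁻¹ • x), hstab w.1 w.2 _⟩
      one_smul := by
        intro w
        apply Subtype.ext
        funext x
        show w.1 ((1 : P)⁻¹ • x) = w.1 x
        rw [inv_one, one_smul]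
      mul_smul := by
        intro g h w
        apply Subtype.ext
        funext x
        show w.1 ((g * h)⁻¹ • x) = w.1 (h⁻¹ • g⁻¹ • x)
        rw [mul_inv_rev, mul_smul] }
  have hsmul : ∀ (g : P) (w : W) (x : S), (g • w).1 x = w.1 (g⁻¹ • x) :=
    fun _ _ _ => rfl
  have hfinW : Finite W := Subtype.finite
  have hWcard : 2 ∣ Nat.card W := by
    have hnt : Nontrivial W := by
      refine ⟨⟨⟨m₀, hm₀⟩, 0, ?_⟩⟩
      intro h
      exact h0 (congrArg Subtype.val h)
    have hp : IsPGroup 2 (Multiplicative W) := by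
      intro w
      refine ⟨1, ?_⟩
      rw [pow_one]
      apply Multiplicative.toAdd.injective
      rw [toAdd_pow, toAdd_one]
      apply Subtype.ext
      funext x
      have : ((2 • (Multiplicative.toAdd w) : W) : S → ZMod 2) x =
          ((2 : ℕ) : ZMod 2) * (Multiplicative.toAdd w).1 x := by
        rw [AddSubgroup.coe_nsmul, Pi.smul_apply, nsmul_eq_mul]
      rw [this, ZMod.natCast_self, zero_mul]
      rfl
    have hnt' : Nontrivial (Multiplicative W) := hnt
    obtain ⟨a, ha, hc⟩ := (IsPGroup.nontrivial_iff_card hp).1 hnt'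
    have hc' : Nat.card W = 2 ^ a := hc
    rw [hc']
    exact dvd_pow_self 2 ha.ne'
  have hfix0 : (0 : W) ∈ MulAction.fixedPoints P W := by
    intro g
    rfl
  obtain ⟨w, hw, hw0⟩ := hP.exists_fixed_point_of_prime_dvd_card_of_fixed_point W hWcard hfix0
  refine ⟨w.1, w.2, fun h => hw0 (Subtype.ext h.symm), fun g x => ?_⟩
  have h1 := hw g⁻¹
  have h2 := congrFun (congrArg Subtype.val h1) x
  rw [hsmul, inv_inv] at h2
  exact h2

end fixed

section half

variable {S : Type} {ι : S → S}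

theorem sum_half_on {A : Type} [AddCommGroup A] (hι : ∀ x, ι (ι x) = x)
    (U : S → ℤ) (hU0 : ∀ x, U x ≠ 0) (hUι : ∀ x, U (ι x) = - U x)
    (Y : Finset S) (hY : ∀ x ∈ Y, ι x ∈ Y) (f : S → A) (hf : ∀ x, f (ι x) = f x) :
    ∑ x ∈ Y, f x = ∑ x ∈ Y.filter (fun x => 0 < U x), f x +
      ∑ x ∈ Y.filter (fun x => 0 < U x), f x := by
  classical
  have h1 : ∑ x ∈ Y.filter (fun x => ¬ 0 < U x), f x = ∑ x ∈ Y.filter (fun x => 0 < U x), f x := by
    refine Finset.sum_nbij' ι ι ?_ ?_ ?_ ?_ ?_
    · intro x hx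
      rw [mem_filter] at hx ⊢
      refine ⟨hY x hx.1, ?_⟩
      rw [hUι]
      have := hU0 x
      omega
    · intro x hx
      rw [mem_filter] at hx ⊢
      refine ⟨hY x hx.1, ?_⟩
      rw [hUι]
      omega
    · intro x _
      exact hι x
    · intro x _
      exact hι x
    · intro x _
      exact (hf x).symm
  rw [← Finset.sum_filter_add_sum_filter_not Y (fun x => 0 < U x), h1]

end half

section core

variable {P S : Type} [Group P] [MulAction P S] [Fintype S]

theorem exists_even_set [Finite P] (hP : IsPGroup 2 P) {ι : S → S}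
    (hι : ∀ x, ι (ι x) = x) (hcomm : ∀ (g : P) (x : S), g • ι x = ι (g • x))
    (U : S → ℤ) (hU : ∀ x, Odd (U x)) (hUι : ∀ x, U (ι x) = - U x)
    (m₀ : S → ℤ) (hodd : ∀ x, m₀ (ι x) = - m₀ x) (h0 : m₀ ≠ 0)
    (hrel : ∀ g : P, ∑ x, m₀ x * U (g • x) = 0) :
    ∃ Y : Finset S, Y.Nonempty ∧ (∀ x ∈ Y, ι x ∈ Y) ∧ (∀ g : P, ∀ x ∈ Y, g • x ∈ Y) ∧
      ∀ g : P, Even ((Y.filter (fun x => 0 < U x)).filter (fun x => U (g • x) < 0)).card := by
  classical
  have hU0 : ∀ x, U x ≠ 0 := by
    intro x h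
    have := hU x
    rw [h] at this
    exact absurd this (by decide)
  let M : AddSubgroup (S → ℤ) :=
    { carrier := {m | (∀ x, m (ι x) = - m x) ∧ ∀ g : P, ∑ x, m x * U (g • x) = 0}
      zero_mem' := by
        refine ⟨fun x => by simp, fun g => by simp⟩
      add_mem' := by
        rintro a b ⟨ha, ha'⟩ ⟨hb, hb'⟩
        refine ⟨fun x => ?_, fun g => ?_⟩
        · rw [Pi.add_apply, Pi.add_apply, ha, hb]; ring
        · have : ∀ x, (a + b) x * U (g • x) = a x * U (g • x) + b x * U (g • x) := by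
            intro x
            rw [Pi.add_apply]; ring
          simp only [this]
          rw [Finset.sum_add_distrib, ha', hb', add_zero]
      neg_mem' := by
        rintro a ⟨ha, ha'⟩
        refine ⟨fun x => ?_, fun g => ?_⟩
        · rw [Pi.neg_apply, Pi.neg_apply, ha]
        · have : ∀ x, (-a) x * U (g • x) = -(a x * U (g • x)) := by
            intro x
            rw [Pi.neg_apply]; ring
          simp only [this]
          rw [Finset.sum_neg_distrib, ha', neg_zero] }
  have hMmem : ∀ m : S → ℤ, m ∈ M ↔ (∀ x, m (ι x) = - m x) ∧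
      ∀ g : P, ∑ x, m x * U (g • x) = 0 := fun _ => Iff.rfl
  have hMstab : ∀ m ∈ M, ∀ g : P, (fun x => m (g • x)) ∈ M := by
    intro m hm g
    rw [hMmem] at hm ⊢
    refine ⟨fun x => ?_, fun h => ?_⟩
    · show m (g • ι x) = - m (g • x)
      rw [hcomm, hm.1]
    · have h4 := hm.2 (h * g⁻¹)
      rw [← h4]
      refine Fintype.sum_equiv (MulAction.toPerm g) _ _ ?_
      intro x
      show m (g • x) * U (h • x) = m (g • x) * U ((h * g⁻¹) • g • x)
      rw [mul_smul, inv_smul_smul]
  obtain ⟨m₁, hm₁, x₁, hx₁⟩ := Pool.Agent.Helper66.NT.exists_not_dvd (r := 2) le_rfl M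
    (by
      intro m hm
      rw [hMmem] at hm ⊢
      refine ⟨fun x => ?_, fun g => ?_⟩
      · have h4 : ((2 : ℕ) : ℤ) * m (ι x) = - (((2 : ℕ) : ℤ) * m x) := hm.1 x
        push_cast at h4
        linarith
      · have h4 := hm.2 g
        have h5 : ∑ x, (((2 : ℕ) : ℤ) * m x) * U (g • x) = 2 * ∑ x, m x * U (g • x) := by
          rw [Finset.mul_sum]
          refine Finset.sum_congr rfl fun x _ => ?_
          push_cast; ring
        rw [h5] at h4
        linarith)
    ((hMmem m₀).2 ⟨hodd, hrel⟩) h0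
  let red : (S → ℤ) →+ (S → ZMod 2) := (Int.castAddHom (ZMod 2)).compLeft S
  have hred : ∀ (m : S → ℤ) (x : S), red m x = ((m x : ℤ) : ZMod 2) := fun _ _ => rfl
  obtain ⟨w, hwW, hw0, hwinv⟩ := exists_fixed hP (M.map red)
    (by
      rintro _ ⟨m, hm, rfl⟩ g
      exact ⟨_, hMstab m hm g, rfl⟩)
    (m₀ := red m₁) ⟨m₁, hm₁, rfl⟩
    (by
      intro h
      apply hx₁
      have h1 := congrFun h x₁
      rw [hred] at h1
      rw [Nat.cast_ofNat]
      exact (ZMod.intCast_zmod_eq_zero_iff_dvd (m₁ x₁) 2).1 h1)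
  obtain ⟨m, hm, rfl⟩ := hwW
  have hm' := (hMmem m).1 hm
  let Y : Finset S := univ.filter (fun x => red m x ≠ 0)
  have hYmem : ∀ x, x ∈ Y ↔ red m x ≠ 0 := by
    intro x
    simp only [Y, mem_filter, mem_univ, true_and]
  have hredι : ∀ x, red m (ι x) = red m x := by
    intro x
    rw [hred, hred, hm'.1 x]
    push_cast
    exact ZMod.neg_eq_self_mod_two _
  have hYι : ∀ x ∈ Y, ι x ∈ Y := by
    intro x hx
    rw [hYmem] at hx ⊢
    rw [hredι]; exact hx
  have hYP : ∀ g : P, ∀ x ∈ Y, g • x ∈ Y := by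
    intro g x hx
    rw [hYmem] at hx ⊢
    rw [hwinv]; exact hx
  refine ⟨Y, ?_, hYι, hYP, ?_⟩
  · obtain ⟨x, hx⟩ : ∃ x, red m x ≠ 0 := by
      by_contra hcon
      push Not at hcon
      exact hw0 (funext hcon)
    exact ⟨x, (hYmem x).2 hx⟩
  intro g
  set T := Y.filter (fun x => 0 < U x) with hT
  -- halves
  choose h hh using fun x : S => ((hU (g • x)).sub_odd (hU x))
  have hh' : ∀ x, U (g • x) - U x = 2 * h x := by
    intro x
    rw [hh x]; ring
  have hhι : ∀ x, h (ι x) = - h x := by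
    intro x
    have e1 := hh' x
    have e2 := hh' (ι x)
    rw [hcomm, hUι, hUι] at e2
    omega
  have hsum1 : ∑ x, m x * h x = 0 := by
    have e1 := hm'.2 g
    have e2 := hm'.2 1
    simp only [one_smul] at e2
    have e3 : ∑ x, m x * U (g • x) - ∑ x, m x * U x = 2 * ∑ x, m x * h x := by
      rw [← Finset.sum_sub_distrib, Finset.mul_sum]
      refine Finset.sum_congr rfl fun x _ => ?_
      rw [← mul_sub, hh' x]; ring
    rw [e1, e2] at e3
    linarith
  have hsum2 : ∑ x ∈ univ.filter (fun x => 0 < U x), m x * h x = 0 := by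
    have e1 := sum_half_on hι U hU0 hUι univ (fun x _ => mem_univ _) (fun x => m x * h x) (by
      intro x
      show m (ι x) * h (ι x) = m x * h x
      rw [hm'.1, hhι]; ring)
    rw [hsum1] at e1
    linarith
  have hsum3 : ((∑ x ∈ T, h x : ℤ) : ZMod 2) = 0 := by
    have e1 := congrArg (Int.cast : ℤ → ZMod 2) hsum2
    rw [Int.cast_sum, Int.cast_zero] at e1
    rw [Int.cast_sum, ← e1]
    have e2 : T ⊆ univ.filter (fun x => 0 < U x) := by
      intro x hx
      rw [hT, mem_filter] at hx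
      exact mem_filter.mpr ⟨mem_univ _, hx.2⟩
    rw [← Finset.sum_subset e2]
    · refine Finset.sum_congr rfl fun x hx => ?_
      rw [hT, mem_filter, hYmem, hred] at hx
      have e3 : ((m x : ℤ) : ZMod 2) = 1 := by
        have e4 : ∀ z : ZMod 2, z ≠ 0 → z = 1 := by decide
        exact e4 _ hx.1
      push_cast
      rw [e3, one_mul]
    · intro x hx hxT
      have e3 : red m x = 0 := by
        by_contra hne
        apply hxT
        rw [hT, mem_filter]
        exact ⟨(hYmem x).2 hne, (mem_filter.mp hx).2⟩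
      rw [hred] at e3
      push_cast
      rw [e3, zero_mul]
  -- absolute values
  have habs : ∑ x ∈ T, |U (g • x)| = ∑ x ∈ T, |U x| := by
    have e1 := sum_half_on hι U hU0 hUι Y hYι (fun x => |U (g • x)|) (by
      intro x
      show |U (g • ι x)| = |U (g • x)|
      rw [hcomm, hUι, abs_neg])
    have e2 := sum_half_on hι U hU0 hUι Y hYι (fun x => |U x|) (by
      intro x
      show |U (ι x)| = |U x|
      rw [hUι, abs_neg])
    have e3 : ∑ x ∈ Y, |U (g • x)| = ∑ x ∈ Y, |U x| := by
      refine Finset.sum_nbij' (fun x => g • x) (fun x => g⁻¹ • x) ?_ ?_ ?_ ?_ ?_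
      · intro x hx
        exact hYP g x hx
      · intro x hx
        exact hYP g⁻¹ x hx
      · intro x _
        exact inv_smul_smul g x
      · intro x _
        exact smul_inv_smul g x
      · intro x _
        rfl
    rw [← hT] at e1 e2
    rw [e1, e2] at e3
    linarith
  have hmain : ∑ x ∈ T, h x = - ∑ x ∈ T.filter (fun x => U (g • x) < 0), |U (g • x)| := by
    have e1 : 2 * ∑ x ∈ T, h x = ∑ x ∈ T, (U (g • x) - |U (g • x)|) := by
      rw [Finset.sum_sub_distrib, habs, ← Finset.sum_sub_distrib, Finset.mul_sum]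
      refine Finset.sum_congr rfl fun x hx => ?_
      rw [← hh' x]
      rw [hT, mem_filter] at hx
      rw [abs_of_pos hx.2]
    have e2 : ∑ x ∈ T, (U (g • x) - |U (g • x)|) =
        ∑ x ∈ T.filter (fun x => U (g • x) < 0), (-2 * |U (g • x)|) := by
      rw [Finset.sum_filter (fun x => U (g • x) < 0) (fun x => -2 * |U (g • x)|)]
      refine Finset.sum_congr rfl fun x _ => ?_
      split_ifs with hneg
      · rw [abs_of_neg hneg]; ring
      · rw [abs_of_nonneg (not_lt.mp hneg)]; ring
    rw [e2, ← Finset.mul_sum] at e1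
    linarith
  have hpar : ((∑ x ∈ T.filter (fun x => U (g • x) < 0), |U (g • x)| : ℤ) : ZMod 2) =
      (((T.filter (fun x => U (g • x) < 0)).card : ℕ) : ZMod 2) := by
    have e4 : ∀ x ∈ T.filter (fun x => U (g • x) < 0), ((|U (g • x)| : ℤ) : ZMod 2) = 1 := by
      intro x hx
      rw [abs_of_neg (mem_filter.mp hx).2]
      obtain ⟨z, hz⟩ := hU (g • x)
      rw [hz]
      push_cast
      have e5 : ∀ y : ZMod 2, -(2 * y + 1) = 1 := by decide
      exact e5 _
    rw [Int.cast_sum, Finset.sum_congr rfl e4, Finset.sum_const, nsmul_eq_mul, mul_one]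
  have hfin : (((T.filter (fun x => U (g • x) < 0)).card : ℕ) : ZMod 2) = 0 := by
    rw [← hpar]
    have e6 : (∑ x ∈ T.filter (fun x => U (g • x) < 0), |U (g • x)| : ℤ) = - ∑ x ∈ T, h x := by
      rw [hmain]; ring
    rw [e6]
    push_cast
    push_cast at hsum3
    rw [hsum3, neg_zero]
  exact (ZMod.natCast_eq_zero_iff_even).1 hfin

end core

section prod

variable {P S : Type} [Group P] [MulAction P S]

/-- The product of an odd function over half of a stable set changes by the sign of the action. -/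
theorem prod_even {ι : S → S}
    (hι : ∀ x, ι (ι x) = x) (hcomm : ∀ (g : P) (x : S), g • ι x = ι (g • x))
    (U : S → ℤ) (hU0 : ∀ x, U x ≠ 0) (hUι : ∀ x, U (ι x) = - U x)
    (Y : Finset S) (hYι : ∀ x ∈ Y, ι x ∈ Y) (hYP : ∀ g : P, ∀ x ∈ Y, g • x ∈ Y)
    {A : Type} [CommRing A] (F : S → A) (hF : ∀ x, F (ι x) = - F x) (g : P)
    (hev : Even ((Y.filter (fun x => 0 < U x)).filter (fun x => U (g • x) < 0)).card) :
    ∏ x ∈ Y.filter (fun x => 0 < U x), F (g • x) = ∏ x ∈ Y.filter (fun x => 0 < U x), F x := by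
  classical
  set T := Y.filter (fun x => 0 < U x) with hT
  have hTm : ∀ x, x ∈ T ↔ x ∈ Y ∧ 0 < U x := by
    intro x
    rw [hT, mem_filter]
  have h1 : ∏ x ∈ T, F (g • x) = (∏ x ∈ T, if U (g • x) < 0 then (-1 : A) else 1) *
      ∏ x ∈ T, F (if U (g • x) < 0 then ι (g • x) else g • x) := by
    rw [← Finset.prod_mul_distrib]
    refine Finset.prod_congr rfl fun x _ => ?_
    split_ifs with h
    · rw [hF]; ring
    · rw [one_mul]
  have h2 : (∏ x ∈ T, if U (g • x) < 0 then (-1 : A) else 1) = 1 := by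
    rw [← Finset.prod_filter, Finset.prod_const]
    exact hev.neg_one_pow
  have h3 : ∏ x ∈ T, F (if U (g • x) < 0 then ι (g • x) else g • x) = ∏ x ∈ T, F x := by
    refine Finset.prod_nbij' (fun x => if U (g • x) < 0 then ι (g • x) else g • x)
      (fun x => if U (g⁻¹ • x) < 0 then ι (g⁻¹ • x) else g⁻¹ • x) ?_ ?_ ?_ ?_ ?_
    · intro x hx
      rw [hTm] at hx ⊢
      have e1 := hYP g x hx.1
      have e2 := hU0 (g • x)
      show (if U (g • x) < 0 then ι (g • x) else g • x) ∈ Y ∧
        0 < U (if U (g • x) < 0 then ι (g • x) else g • x)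
      split_ifs with h
      · refine ⟨hYι _ e1, ?_⟩
        rw [hUι]; omega
      · exact ⟨e1, by omega⟩
    · intro x hx
      rw [hTm] at hx ⊢
      have e1 := hYP g⁻¹ x hx.1
      have e2 := hU0 (g⁻¹ • x)
      show (if U (g⁻¹ • x) < 0 then ι (g⁻¹ • x) else g⁻¹ • x) ∈ Y ∧
        0 < U (if U (g⁻¹ • x) < 0 then ι (g⁻¹ • x) else g⁻¹ • x)
      split_ifs with h
      · refine ⟨hYι _ e1, ?_⟩
        rw [hUι]; omega
      · exact ⟨e1, by omega⟩
    · intro x hx
      have hx' := ((hTm x).1 hx).2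
      show (if U (g⁻¹ • (if U (g • x) < 0 then ι (g • x) else g • x)) < 0 then
        ι (g⁻¹ • (if U (g • x) < 0 then ι (g • x) else g • x)) else
        g⁻¹ • (if U (g • x) < 0 then ι (g • x) else g • x)) = x
      by_cases h : U (g • x) < 0
      · rw [if_pos h, hcomm, inv_smul_smul, hUι, if_pos (by omega), hι]
      · rw [if_neg h, inv_smul_smul, if_neg (by omega)]
    · intro x hx
      have hx' := ((hTm x).1 hx).2
      show (if U (g • (if U (g⁻¹ • x) < 0 then ι (g⁻¹ • x) else g⁻¹ • x)) < 0 then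
        ι (g • (if U (g⁻¹ • x) < 0 then ι (g⁻¹ • x) else g⁻¹ • x)) else
        g • (if U (g⁻¹ • x) < 0 then ι (g⁻¹ • x) else g⁻¹ • x)) = x
      by_cases h : U (g⁻¹ • x) < 0
      · rw [if_pos h, hcomm, smul_inv_smul, hUι, if_pos (by omega), hι]
      · rw [if_neg h, smul_inv_smul, if_neg (by omega)]
    · intro x _
      rfl
  rw [h1, h2, h3, one_mul]

end prod

end Pool.Agent.Helper19.Disc
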