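import Pool.Agent.Helper19.Disc.Main

/-!
# MP_de89cc_ag: a discriminant criterion for multiplicative relations between Frobenius eigenvalues

`E` is a number field (for instance `ℚ`), `Q i` are irreducible polynomials over `E` of 2-power
degree whose roots (Frobenius eigenvalues) are permuted by `β ↦ c / β` (`c = q`).
`v` is a (normalized) valuation of the Galois extension `L`; `v β - v c / 2` is the deviation of
the slope from the middle.  The number `(-c) ^ (2 ^ k) * Res(Q, T ^ 2 - c)` is equal to the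
discriminant of `Q` up to squares.
-/

open Polynomial Finset Pool.Agent.Helper19.Disc

namespace Pool.Agent.Results.MP_de89cc_ag.DiscriminantCriterion

/-- The finite set of the roots of `P` in `L`. -/
noncomputable def roots {E : Type} [Field E] (P : E[X]) (L : Type) [Field L] [Algebra E L] :
    Finset L := (P.rootSet_finite L).toFinset

theorem result (E L : Type) [Field E] [CharZero E] [Field L] [Algebra E L]
    [FiniteDimensional E L] [IsGalois E L] (I : Type) [Fintype I]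
    -- irreducible polynomials of 2-power degree, stable under `β ↦ c / β`
    (Q : I → E[X]) (hirr : ∀ i, Irreducible (Q i))
    (hsplit : ∀ i, ((Q i).map (algebraMap E L)).Splits)
    (k : I → ℕ) (hdeg : ∀ i, (Q i).natDegree = 2 ^ (k i + 1)) (c : E) (hc : c ≠ 0)
    (hsym : ∀ i, ∀ β ∈ roots (Q i) L, algebraMap E L c / β ∈ roots (Q i) L)
    -- the discriminants are independent modulo squares
    (hdisc : ∀ J : Finset I, J.Nonempty →
      ¬ IsSquare (∏ i ∈ J, (-c) ^ 2 ^ k i * (Q i).resultant (X ^ 2 - C c)))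
    -- the valuation and the slopes
    (v : L → ℚ) (hv : ∀ x y : L, x ≠ 0 → y ≠ 0 → v (x * y) = v x + v y)
    (ρ : I → ℚ) (hρ : ∀ i, ρ i ≠ 0)
    (hslope : ∀ i, ∀ β ∈ roots (Q i) L,
      padicNorm 2 (v β - v (algebraMap E L c) / 2) = ρ i)
    -- a relation
    (n : I → L → ℤ) (N : ℕ) (hN : N ≠ 0) (e : E)
    (hrel : (∏ i, ∏ β ∈ roots (Q i) L, β ^ n i β) ^ N = algebraMap E L e) :
    ∀ i, ∀ β ∈ roots (Q i) L, n i β = n i (algebraMap E L c / β) := by
  classical
  by_contra hcon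
  push Not at hcon
  obtain ⟨i₀, β₀, hβ₀, hne₀⟩ := hcon
  have hPne : ∀ i, Q i ≠ 0 := fun i => (hirr i).ne_zero
  set c' : L := algebraMap E L c with hc'
  have hc0 : c' ≠ 0 := by
    rw [hc']
    intro h
    exact hc ((map_eq_zero _).1 h)
  -- roots are nonzero
  have hne0 : ∀ i, ∀ β ∈ roots (Q i) L, β ≠ 0 := by
    rintro i β hβ rfl
    have h1 : aeval (0 : L) (Q i) = 0 := (mem_roots' (hPne i)).1 hβ
    rw [aeval_def, eval₂_at_zero, map_eq_zero] at h1
    have h2 : X ∣ Q i := X_dvd_iff.2 h1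
    have h3 : Associated X (Q i) := (irreducible_X.associated_of_dvd (hirr i) h2)
    have h4 := Polynomial.degree_eq_degree_of_associated h3
    have h5 : (Q i).natDegree = 1 := by
      rw [← natDegree_X (R := E)]
      exact (natDegree_eq_natDegree h4).symm
    rw [hdeg i] at h5
    have h6 : 2 ≤ 2 ^ (k i + 1) := by
      calc 2 = 2 ^ 1 := rfl
        _ ≤ 2 ^ (k i + 1) := Nat.pow_le_pow_right (by norm_num) (by omega)
    omega
  -- the function v
  have hv1 : v 1 = 0 := by
    have h4 := hv 1 1 one_ne_zero one_ne_zero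
    rw [mul_one] at h4
    linarith
  have hvinv : ∀ x : L, x ≠ 0 → v x⁻¹ = - v x := by
    intro x hx
    have h4 := hv x x⁻¹ hx (inv_ne_zero hx)
    rw [mul_inv_cancel₀ hx, hv1] at h4
    linarith
  have hvpow : ∀ (x : L) (j : ℕ), x ≠ 0 → v (x ^ j) = j * v x := by
    intro x j hx
    induction j with
    | zero => rw [pow_zero, hv1]; simp
    | succ j ih =>
      rw [pow_succ, hv _ _ (pow_ne_zero j hx) hx, ih]
      push_cast; ring
  have hvzpow : ∀ (x : L) (j : ℤ), x ≠ 0 → v (x ^ j) = j * v x := by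
    intro x j hx
    obtain ⟨i, rfl | rfl⟩ := j.eq_nat_or_neg
    · rw [zpow_natCast, hvpow x i hx]
      push_cast; rfl
    · rw [zpow_neg, zpow_natCast, hvinv _ (pow_ne_zero i hx), hvpow x i hx]
      push_cast; ring
  -- the set
  let S : Type := Σ i, Rt L (Q i)
  let G : Type := L ≃ₐ[E] L
  letI act : MulAction G S := actSigma hPne
  have hact1 : ∀ (σ : G) (x : S), (σ • x).1 = x.1 := fun _ _ => rfl
  have hact : ∀ (σ : G) (x : S), (σ • x).2.1 = σ x.2.1 := fun _ _ => rfl
  have hx0 : ∀ x : S, x.2.1 ≠ 0 := fun x => hne0 x.1 x.2.1 x.2.2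
  have hvprod : ∀ (f : S → L), (∀ x, f x ≠ 0) → v (∏ x, f x) = ∑ x, v (f x) := by
    intro f hf
    have haux : ∀ (U : Finset S), v (∏ x ∈ U, f x) = ∑ x ∈ U, v (f x) := by
      intro U
      induction U using Finset.induction_on with
      | empty => rw [Finset.prod_empty, Finset.sum_empty, hv1]
      | insert b U hb ih =>
        rw [Finset.prod_insert hb, Finset.sum_insert hb,
          hv _ _ (hf b) (Finset.prod_ne_zero_iff.2 fun x _ => hf x), ih]
    exact haux univ
  let ι : S → S := fun x => ⟨x.1, ⟨c' / x.2.1, hsym x.1 x.2.1 x.2.2⟩⟩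
  have hι1 : ∀ x : S, (ι x).1 = x.1 := fun _ => rfl
  have hι' : ∀ x : S, (ι x).2.1 = c' / x.2.1 := fun _ => rfl
  have hSext : ∀ (i : I) (a b : Rt L (Q i)), a.1 = b.1 → (⟨i, a⟩ : S) = ⟨i, b⟩ := by
    intro i a b h
    rw [Subtype.ext h]
  have hι : ∀ x : S, ι (ι x) = x := by
    intro x
    refine hSext x.1 _ x.2 ?_
    show c' / (c' / x.2.1) = x.2.1
    rw [div_div_cancel₀ hc0]
  have hcomm : ∀ (g : G) (x : S), g • ι x = ι (g • x) := by
    intro g x
    refine hSext x.1 _ _ ?_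
    show g (c' / x.2.1) = c' / g x.2.1
    rw [map_div₀, hc', AlgEquiv.commutes]
  let w : S → ℚ := fun x => v x.2.1 - v c' / 2
  have hw' : ∀ x : S, w x = v x.2.1 - v c' / 2 := fun _ => rfl
  have hw : ∀ x, w (ι x) = - w x := by
    intro x
    have h4 := hv (c' / x.2.1) x.2.1 (div_ne_zero hc0 (hx0 x)) (hx0 x)
    rw [div_mul_cancel₀ _ (hx0 x)] at h4
    rw [hw', hw', hι']
    linarith
  have hwn : ∀ x : S, padicNorm 2 (w x) = ρ x.1 := fun x => hslope x.1 x.2.1 x.2.2
  have hw0 : ∀ x, w x ≠ 0 := by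
    intro x h
    have h1 := hwn x
    rw [h, padicNorm.zero] at h1
    exact hρ x.1 h1.symm
  have hwval : ∀ (g : G) (x : S), padicValRat 2 (w (g • x)) = padicValRat 2 (w x) := by
    intro g x
    have h1 : padicNorm 2 (w (g • x)) = padicNorm 2 (w x) := by
      rw [hwn, hwn, hact1]
    rw [padicNorm.eq_zpow_of_nonzero (hw0 _), padicNorm.eq_zpow_of_nonzero (hw0 _)] at h1
    have h2 := zpow_right_injective₀ (by norm_num : (0 : ℚ) < (2 : ℕ)) (by norm_num) h1
    exact neg_injective h2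
  -- the relation
  have hprodS : ∏ i, ∏ β ∈ roots (Q i) L, β ^ n i β = ∏ x : S, x.2.1 ^ n x.1 x.2.1 := by
    have h1 := Fintype.prod_sigma (fun x : S => x.2.1 ^ n x.1 x.2.1)
    rw [h1]
    refine Finset.prod_congr rfl fun i _ => ?_
    exact (Finset.prod_coe_sort (roots (Q i) L) fun β => β ^ n i β).symm
  rw [hprodS] at hrel
  let n' : S → ℤ := fun x => n x.1 x.2.1
  have hrel' : (∏ x : S, x.2.1 ^ n' x) ^ N = algebraMap E L e := hrel
  have ha0 : algebraMap E L e ≠ 0 := by
    rw [← hrel']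
    exact pow_ne_zero N (Finset.prod_ne_zero_iff.2 fun x _ => zpow_ne_zero _ (hx0 x))
  have hlin : ∀ g : G, (N : ℚ) * ∑ x : S, (n' x : ℚ) * v (g x.2.1) = v (algebraMap E L e) := by
    intro g
    have h4 := congrArg g hrel'
    rw [map_pow, map_prod, AlgEquiv.commutes] at h4
    have hgne : ∀ x : S, g x.2.1 ≠ 0 := fun x => (map_ne_zero g).2 (hx0 x)
    have h5 : ∏ x : S, g (x.2.1 ^ n' x) = ∏ x : S, (g x.2.1) ^ n' x :=
      Finset.prod_congr rfl fun x _ => map_zpow₀ g _ _
    rw [h5] at h4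
    rw [← h4, hvpow _ N (Finset.prod_ne_zero_iff.2 fun x _ => zpow_ne_zero _ (hgne x)),
      hvprod _ fun x => zpow_ne_zero _ (hgne x)]
    congr 1
    exact Finset.sum_congr rfl fun x _ => (hvzpow (g x.2.1) (n' x) (hgne x)).symm
  have hN0 : (N : ℚ) ≠ 0 := by exact_mod_cast hN
  have hfinG : Fintype G := Fintype.ofFinite G
  obtain ⟨K, hK⟩ : ∃ K : ℚ, ∀ g : G, ∑ x : S, (n' x : ℚ) * w (g • x) = K := by
    refine ⟨v (algebraMap E L e) / N - (∑ x : S, (n' x : ℚ)) * (v c' / 2), fun g => ?_⟩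
    have h4 : ∑ x : S, (n' x : ℚ) * v (g x.2.1) = v (algebraMap E L e) / N := by
      rw [eq_div_iff hN0, ← hlin g, mul_comm]
    rw [← h4, Finset.sum_mul, ← Finset.sum_sub_distrib]
    refine Finset.sum_congr rfl fun x _ => ?_
    rw [hw', hact]
    ring
  have hcardG : (Fintype.card G : ℚ) ≠ 0 := by
    exact_mod_cast Fintype.card_ne_zero
  have hK0 : K = 0 := by
    have h4 : ∑ g : G, ∑ x : S, (n' x : ℚ) * w (g • x) = Fintype.card G * K := by
      simp only [hK, Finset.sum_const, Finset.card_univ, nsmul_eq_mul]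
    rw [Finset.sum_comm] at h4
    have h5 : ∀ x : S, ∑ g : G, (n' x : ℚ) * w (g • x) = 0 := by
      intro x
      rw [← Finset.mul_sum]
      obtain ⟨τ, hτ⟩ := exists_conj (hirr x.1) x.2 (ι x).2
      have hτ' : τ • x = ι x := hSext x.1 _ _ hτ
      have h6 : ∑ g : G, w (g • x) = ∑ g : G, w (g • ι x) := by
        refine (Fintype.sum_equiv (Equiv.mulRight τ) _ _ fun g => ?_).symm
        show w (g • ι x) = w ((g * τ) • x)
        rw [mul_smul, hτ']
      have h7 : ∑ g : G, w (g • ι x) = - ∑ g : G, w (g • x) := by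
        rw [← Finset.sum_neg_distrib]
        refine Finset.sum_congr rfl fun g _ => ?_
        rw [hcomm, hw]
      have h8 : ∑ g : G, w (g • x) = 0 := by linarith
      rw [h8, mul_zero]
    simp only [h5, Finset.sum_const_zero] at h4
    exact (mul_eq_zero.1 h4.symm).resolve_left hcardG
  let m₀ : S → ℤ := fun x => n' x - n' (ι x)
  have hm₀ι : ∀ x, m₀ (ι x) = - m₀ x := by
    intro x
    show n' (ι x) - n' (ι (ι x)) = -(n' x - n' (ι x))
    rw [hι]; ring
  have hm₀rel : ∀ g : G, ∑ x : S, (m₀ x : ℚ) * w (g • x) = 0 := by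
    intro g
    have h4 : ∑ x : S, ((m₀ x : ℤ) : ℚ) * w (g • x) =
        ∑ x : S, (n' x : ℚ) * w (g • x) - ∑ x : S, (n' (ι x) : ℚ) * w (g • x) := by
      rw [← Finset.sum_sub_distrib]
      refine Finset.sum_congr rfl fun x _ => ?_
      show ((n' x - n' (ι x) : ℤ) : ℚ) * w (g • x) = _
      push_cast; ring
    have h5 : ∑ x : S, (n' (ι x) : ℚ) * w (g • x) = - ∑ x : S, (n' x : ℚ) * w (g • x) := by
      rw [← Finset.sum_neg_distrib]
      refine Finset.sum_bij' (fun x _ => ι x) (fun x _ => ι x) (fun _ _ => Finset.mem_univ _)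
        (fun _ _ => Finset.mem_univ _) (fun x _ => hι x) (fun x _ => hι x) fun x _ => ?_
      rw [hcomm, hw]
      ring
    rw [h4, h5, hK, hK0]
    ring
  have hm₀ne : m₀ ≠ 0 := by
    intro h
    have h1 : m₀ ⟨i₀, ⟨β₀, hβ₀⟩⟩ = 0 := congrFun h _
    have h2 : n i₀ β₀ - n i₀ (c' / β₀) = 0 := h1
    exact hne₀ (sub_eq_zero.1 h2)
  -- scaling and the 2-group
  obtain ⟨U, m', hUodd, hUι, hm'ι, hm'ne, hm'rel⟩ :=
    exists_odd_scaling (G := G) w hw hw0 hwval m₀ hm₀ne hm₀ι hm₀rel
  have hU0 : ∀ x, U x ≠ 0 := by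
    intro x h
    have := hUodd x
    rw [h] at this
    exact absurd this (by decide)
  let Sy : Sylow 2 G := default
  obtain ⟨Y, hYne, hYι, hYP, hYev⟩ := exists_even_set (P := (Sy : Subgroup G)) Sy.isPGroup' hι
    (fun g x => hcomm g.1 x) U hUodd hUι m' hm'ι hm'ne (fun g => hm'rel g.1)
  -- `Y` is a union of full sets of roots
  let J : Finset I := Y.image (fun x => x.1)
  have hJne : J.Nonempty := hYne.image _
  have hYJ : ∀ x : S, x ∈ Y ↔ x.1 ∈ J := by
    intro x
    constructor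
    · intro hx
      exact mem_image.2 ⟨x, hx, rfl⟩
    · intro hx
      obtain ⟨⟨i, y⟩, hy, hyx⟩ := mem_image.1 hx
      obtain ⟨j, z⟩ := x
      have hij : i = j := hyx
      subst hij
      obtain ⟨σ, hσ, hσ'⟩ := sylow_conj (hirr i) (hsplit i) (hdeg i) Sy y z
      have h1 := hYP ⟨σ, hσ⟩ ⟨i, y⟩ hy
      have h2 : ((⟨σ, hσ⟩ : (Sy : Subgroup G)) • (⟨i, y⟩ : S)) = ⟨i, z⟩ := hSext i _ _ hσ'
      rw [h2] at h1
      exact h1
  -- the square root
  let F : S → L := fun x => x.2.1 - c' / x.2.1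
  have hF : ∀ x, F (ι x) = - F x := by
    intro x
    show c' / x.2.1 - c' / (c' / x.2.1) = -(x.2.1 - c' / x.2.1)
    rw [div_div_cancel₀ hc0]; ring
  have hFg : ∀ (g : G) (x : S), F (g • x) = g (F x) := by
    intro g x
    show g x.2.1 - c' / g x.2.1 = g (x.2.1 - c' / x.2.1)
    rw [map_sub, map_div₀, hc', AlgEquiv.commutes]
  let δ : L := ∏ x ∈ Y.filter (fun x => 0 < U x), F x
  have hδfix : ∀ g ∈ Sy, g δ = δ := by
    intro g hg
    have h1 := prod_even (P := (Sy : Subgroup G)) hι (fun g x => hcomm g.1 x) U hU0 hUι Y hYι hYP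
      F hF ⟨g, hg⟩ (hYev ⟨g, hg⟩)
    have h2 : g δ = ∏ x ∈ Y.filter (fun x => 0 < U x), F ((⟨g, hg⟩ : (Sy : Subgroup G)) • x) := by
      show g (∏ x ∈ Y.filter (fun x => 0 < U x), F x) = _
      rw [map_prod]
      exact Finset.prod_congr rfl fun x _ => (hFg g x).symm
    rw [h2, h1]
  -- the discriminants
  have hNi : ∀ i, algebraMap E L ((-c) ^ 2 ^ k i * (Q i).resultant (X ^ 2 - C c)) =
      (algebraMap E L (Q i).leadingCoeff) ^ 2 *
        ∏ x ∈ (univ.filter (fun x : S => x.1 = i)).filter (fun x => 0 < U x), (c' * F x) ^ 2 := by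
    intro i
    have h1 : (univ.filter (fun x : S => x.1 = i)) =
        (univ : Finset (Rt L (Q i))).map ⟨fun y => (⟨i, y⟩ : S), fun a b h => eq_of_heq (Sigma.mk.inj h).2⟩ := by
      ext x
      rw [mem_filter, mem_map]
      constructor
      · rintro ⟨_, h⟩
        obtain ⟨j, z⟩ := x
        have hj : j = i := h
        subst hj
        exact ⟨z, mem_univ _, rfl⟩
      · rintro ⟨z, _, rfl⟩
        exact ⟨mem_univ _, rfl⟩
    have h2 : (univ.filter (fun x : S => x.1 = i)).card = 2 ^ (k i + 1) := by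
      rw [h1, card_map, ← hdeg i, ← (roots_map_eq (hirr i) (hsplit i)).2]
      exact Fintype.card_coe (roots (Q i) L)
    have hst : ∀ x ∈ univ.filter (fun x : S => x.1 = i), ι x ∈ univ.filter (fun x : S => x.1 = i) := by
      intro x hx
      rw [mem_filter] at hx ⊢
      exact ⟨mem_univ _, hx.2⟩
    have h3 := card_pair hι U hU0 hUι _ hst
    rw [h2, pow_succ] at h3
    have h4 : ((univ.filter (fun x : S => x.1 = i)).filter (fun x => 0 < U x)).card = 2 ^ k i := by
      omega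
    have h5 : ∏ β ∈ roots (Q i) L, (β ^ 2 - c') =
        ∏ x ∈ univ.filter (fun x : S => x.1 = i), (x.2.1 ^ 2 - c') := by
      rw [h1, Finset.prod_map]
      exact (Finset.prod_coe_sort (roots (Q i) L) fun β => β ^ 2 - c').symm
    have h6 := map_resultant (hirr i) (hsplit i) c
    have h7 : ∏ β ∈ Pool.Agent.Helper19.Disc.roots (Q i) L, (β ^ 2 - algebraMap E L c) =
        ∏ β ∈ roots (Q i) L, (β ^ 2 - c') := rfl
    rw [map_mul, map_pow, map_neg, h6, h7, h5,
      prod_pair hι U hU0 hUι _ hst (fun x => x.2.1 ^ 2 - c'), ← h4, ← Finset.prod_const,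
      ← mul_assoc, mul_comm _ ((algebraMap E L (Q i).leadingCoeff) ^ 2), mul_assoc,
      ← Finset.prod_mul_distrib]
    congr 1
    refine Finset.prod_congr rfl fun x _ => ?_
    show -c' * ((x.2.1 ^ 2 - c') * ((c' / x.2.1) ^ 2 - c')) = (c' * (x.2.1 - c' / x.2.1)) ^ 2
    have h8 := hx0 x
    field_simp
    ring
  have hprod : algebraMap E L (∏ i ∈ J, (-c) ^ 2 ^ k i * (Q i).resultant (X ^ 2 - C c)) =
      (algebraMap E L (c ^ (Y.filter (fun x => 0 < U x)).card * ∏ i ∈ J, (Q i).leadingCoeff)) ^ 2 *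
        δ ^ 2 := by
    rw [map_prod, Finset.prod_congr rfl fun i _ => hNi i, Finset.prod_mul_distrib,
      Finset.prod_pow, map_mul, map_prod, map_pow, mul_pow, mul_assoc,
      mul_comm ((algebraMap E L c ^ (Y.filter (fun x => 0 < U x)).card) ^ 2), mul_assoc]
    congr 1
    rw [mul_comm, ← mul_pow, ← hc', ← Finset.prod_const, ← Finset.prod_mul_distrib]
    have h1 : ∏ i ∈ J, ∏ x ∈ (univ.filter (fun x : S => x.1 = i)).filter (fun x => 0 < U x),
        (c' * F x) ^ 2 = ∏ x ∈ Y.filter (fun x => 0 < U x), (c' * F x) ^ 2 := by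
      rw [← Finset.prod_fiberwise_of_maps_to (s := Y.filter (fun x => 0 < U x)) (t := J)
        (g := fun x => x.1) (fun x hx => (hYJ x).1 (mem_filter.1 hx).1)]
      refine Finset.prod_congr rfl fun i hi => ?_
      refine Finset.prod_congr ?_ fun _ _ => rfl
      ext x
      simp only [mem_filter, mem_univ, true_and]
      constructor
      · rintro ⟨h2, h3⟩
        refine ⟨⟨(hYJ x).2 ?_, h3⟩, h2⟩
        rw [h2]; exact hi
      · rintro ⟨⟨_, h3⟩, h2⟩
        exact ⟨h2, h3⟩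
    rw [h1, Finset.prod_pow]
  -- conclusion
  set A : E := c ^ (Y.filter (fun x => 0 < U x)).card * ∏ i ∈ J, (Q i).leadingCoeff with hA
  have hA0 : A ≠ 0 := by
    rw [hA]
    refine mul_ne_zero (pow_ne_zero _ hc) (Finset.prod_ne_zero_iff.2 fun i _ => ?_)
    exact leadingCoeff_ne_zero.2 (hPne i)
  set B : E := ∏ i ∈ J, (-c) ^ 2 ^ k i * (Q i).resultant (X ^ 2 - C c) with hB
  have hAB : δ ^ 2 = algebraMap E L (B / A ^ 2) := by
    rw [map_div₀, hprod, map_pow]
    have h1 : algebraMap E L A ≠ 0 := by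
      intro h
      exact hA0 ((map_eq_zero _).1 h)
    field_simp
  obtain ⟨d, hd⟩ := isSquare_of_fixed Sy δ (B / A ^ 2) hAB hδfix
  apply hdisc J hJne
  refine ⟨d * A, ?_⟩
  rw [← hB]
  rw [div_eq_iff (pow_ne_zero 2 hA0)] at hd
  rw [hd]; ring

end Pool.Agent.Results.MP_de89cc_ag.DiscriminantCriterion
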