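import Pool.Agent.Helper19.Disc.Scale

/-!
# The Galois part of the discriminant criterion
-/

open Polynomial Finset

namespace Pool.Agent.Helper19.Disc

/-- The finite set of the roots of `P` in `L`. -/
noncomputable def roots {E : Type} [Field E] (P : E[X]) (L : Type) [Field L] [Algebra E L] :
    Finset L := (P.rootSet_finite L).toFinset

section

variable {E L : Type} [Field E] [Field L] [Algebra E L]

theorem mem_roots' {P : E[X]} (hP : P ≠ 0) {β : L} : β ∈ roots P L ↔ aeval β P = 0 := by
  unfold roots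
  rw [Set.Finite.mem_toFinset, mem_rootSet]
  exact and_iff_right hP

theorem stab_roots {P : E[X]} (hP : P ≠ 0) (σ : L ≃ₐ[E] L) {β : L} (hβ : β ∈ roots P L) :
    σ β ∈ roots P L := by
  rw [mem_roots' hP] at hβ ⊢
  rw [Polynomial.aeval_algEquiv, AlgHom.comp_apply, hβ]
  exact map_zero _

/-- Elements of a Galois group whose square is rational and which are fixed by a Sylow 2-subgroup
are rational. -/
theorem isSquare_of_fixed [FiniteDimensional E L] [IsGalois E L] (P : Sylow 2 (L ≃ₐ[E] L)) (δ : L)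
    (e : E) (hδ : δ ^ 2 = algebraMap E L e) (hfix : ∀ g ∈ P, g δ = δ) : IsSquare e := by
  classical
  let H : Subgroup (L ≃ₐ[E] L) := MulAction.stabilizer (L ≃ₐ[E] L) δ
  have hH : ∀ g, g ∈ H ↔ g δ = δ := fun g => Iff.rfl
  have hPH : (P : Subgroup (L ≃ₐ[E] L)) ≤ H := fun g hg => hfix g hg
  have hodd : ¬ 2 ∣ H.index := by
    intro h
    exact P.not_dvd_index (h.trans (Subgroup.index_dvd_of_le hPH))
  have hle : H.index ≤ 2 := by
    have hind : H.index = (MulAction.orbit (L ≃ₐ[E] L) δ).ncard := MulAction.index_stabilizer _ δ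
    rw [hind]
    have hsub : MulAction.orbit (L ≃ₐ[E] L) δ ⊆ ({δ, -δ} : Set L) := by
      rintro _ ⟨g, rfl⟩
      have h1 : (g δ) ^ 2 = δ ^ 2 := by rw [← map_pow, hδ, AlgEquiv.commutes]
      rcases sq_eq_sq_iff_eq_or_eq_neg.mp h1 with h | h
      · left; exact h
      · right; exact h
    refine (Set.ncard_le_ncard hsub (Set.toFinite _)).trans ?_
    refine (Set.ncard_insert_le _ _).trans ?_
    rw [Set.ncard_singleton]
  have hne : H.index ≠ 0 := Subgroup.index_ne_zero_of_finite
  have hone : H.index = 1 := by omega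
  have htop : H = ⊤ := Subgroup.index_eq_one.mp hone
  have hfixall : ∀ g : L ≃ₐ[E] L, g δ = δ := by
    intro g
    rw [← hH, htop]
    exact Subgroup.mem_top g
  obtain ⟨d, hd⟩ := (IsGalois.mem_range_algebraMap_iff_fixed δ).mpr hfixall
  refine ⟨d, ?_⟩
  apply (algebraMap E L).injective
  rw [← hδ, ← hd, map_mul]
  ring

theorem roots_map_eq {P : E[X]} (hirr : Irreducible P) [CharZero E]
    (hsplit : (P.map (algebraMap E L)).Splits) : (P.map (algebraMap E L)).roots = (roots P L).val ∧
      (roots P L).card = P.natDegree := by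
  classical
  have hP : P ≠ 0 := hirr.ne_zero
  have hPm : P.map (algebraMap E L) ≠ 0 := by
    rw [Ne, Polynomial.map_eq_zero]; exact hP
  have hsep : (P.map (algebraMap E L)).Separable := hirr.separable.map
  have hnd : (P.map (algebraMap E L)).roots.Nodup := nodup_roots hsep
  have h1 : (P.map (algebraMap E L)).roots = (roots P L).val := by
    have h2 : roots P L = ⟨(P.map (algebraMap E L)).roots, hnd⟩ := by
      ext β
      rw [mem_roots' hP]
      show _ ↔ β ∈ (P.map (algebraMap E L)).roots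
      rw [mem_roots hPm, IsRoot.def, eval_map_algebraMap]
    rw [h2]
  refine ⟨h1, ?_⟩
  have h3 : (roots P L).card = Multiset.card (roots P L).val := rfl
  rw [h3, ← h1, ← hsplit.natDegree_eq_card_roots, natDegree_map]

theorem map_resultant {P : E[X]} (hirr : Irreducible P) [CharZero E]
    (hsplit : (P.map (algebraMap E L)).Splits) (c : E) :
    algebraMap E L (P.resultant (X ^ 2 - C c)) =
      (algebraMap E L P.leadingCoeff) ^ 2 * ∏ β ∈ roots P L, (β ^ 2 - algebraMap E L c) := by
  classical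
  have hdeg : (X ^ 2 - C c : E[X]).natDegree = 2 := natDegree_X_pow_sub_C
  have h1 := resultant_map_map P (X ^ 2 - C c) P.natDegree (X ^ 2 - C c : E[X]).natDegree
    (algebraMap E L)
  rw [← h1, hdeg]
  have h2 : P.natDegree = (P.map (algebraMap E L)).natDegree := (natDegree_map _).symm
  rw [h2]
  have hmap : (X ^ 2 - C c : E[X]).map (algebraMap E L) = X ^ 2 - C (algebraMap E L c) := by
    rw [Polynomial.map_sub, Polynomial.map_pow, map_X, map_C]
  rw [resultant_eq_prod_eval _ _ 2 (by rw [hmap]; exact natDegree_X_pow_sub_C.le) hsplit]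
  rw [leadingCoeff_map, (roots_map_eq hirr hsplit).1, hmap]
  congr 1
  have h3 : ((roots P L).val.map (eval · (X ^ 2 - C (algebraMap E L c)))).prod =
      ∏ β ∈ roots P L, eval β (X ^ 2 - C (algebraMap E L c)) := rfl
  rw [h3]
  refine Finset.prod_congr rfl fun β _ => ?_
  rw [eval_sub, eval_pow, eval_X, eval_C]

end

section pair

variable {S : Type} {ι : S → S}

theorem prod_pair {A : Type} [CommMonoid A] (hι : ∀ x, ι (ι x) = x)
    (U : S → ℤ) (hU0 : ∀ x, U x ≠ 0) (hUι : ∀ x, U (ι x) = - U x)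
    (Y : Finset S) (hY : ∀ x ∈ Y, ι x ∈ Y) (f : S → A) :
    ∏ x ∈ Y, f x = ∏ x ∈ Y.filter (fun x => 0 < U x), (f x * f (ι x)) := by
  classical
  have h1 : ∏ x ∈ Y.filter (fun x => ¬ 0 < U x), f x =
      ∏ x ∈ Y.filter (fun x => 0 < U x), f (ι x) := by
    refine Finset.prod_nbij' ι ι ?_ ?_ ?_ ?_ ?_
    · intro x hx
      rw [mem_filter] at hx ⊢
      refine ⟨hY x hx.1, ?_⟩
      rw [hUι]
      have := hU0 x
      omega
    · intro x hx
      rw [mem_filter] at hx ⊢
      refine ⟨hY x hx.1, ?_⟩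
      rw [hUι]
      omega
    · intro x _
      exact hι x
    · intro x _
      exact hι x
    · intro x _
      rw [hι]
  rw [← Finset.prod_filter_mul_prod_filter_not Y (fun x => 0 < U x), h1, Finset.prod_mul_distrib]

theorem card_pair (hι : ∀ x, ι (ι x) = x)
    (U : S → ℤ) (hU0 : ∀ x, U x ≠ 0) (hUι : ∀ x, U (ι x) = - U x)
    (Y : Finset S) (hY : ∀ x ∈ Y, ι x ∈ Y) :
    Y.card = 2 * (Y.filter (fun x => 0 < U x)).card := by
  have h := sum_half_on hι U hU0 hUι Y hY (fun _ => (1 : ℤ)) (fun _ => rfl)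
  simp only [Finset.sum_const, nsmul_eq_mul, mul_one] at h
  have h2 : (Y.card : ℤ) = (2 * (Y.filter (fun x => 0 < U x)).card : ℕ) := by
    rw [h]; push_cast; ring
  exact_mod_cast h2

end pair

end Pool.Agent.Helper19.Disc
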