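import Pool.Agent.Helper19.Disc.Core

/-!
# Scaling a rational relation to an integral relation with odd coefficients
-/

open Finset

namespace Pool.Agent.Helper19.Disc

theorem odd_of_padicValRat {q : ℚ} (hq : q ≠ 0) (h : padicValRat 2 q = 0) :
    Odd q.num ∧ Odd q.den := by
  have h1 : padicValRat 2 q = (padicValInt 2 q.num : ℤ) - padicValNat 2 q.den := rfl
  have hden : Odd q.den := by
    rw [← Nat.not_even_iff_odd]
    intro hev
    have hd : 2 ∣ q.den := even_iff_two_dvd.mp hev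
    have h2 : 1 ≤ padicValNat 2 q.den := one_le_padicValNat_of_dvd q.den_nz hd
    have h3 : 1 ≤ padicValInt 2 q.num := by omega
    have h4 : (2 : ℕ) ∣ q.num.natAbs := by
      by_contra hnd
      have h5 : padicValNat 2 q.num.natAbs = 0 := padicValNat.eq_zero_of_not_dvd hnd
      have h6 : padicValInt 2 q.num = 0 := h5
      omega
    have h7 := q.reduced
    have h8 : 2 ∣ Nat.gcd q.num.natAbs q.den := Nat.dvd_gcd h4 hd
    rw [h7] at h8
    omega
  refine ⟨?_, hden⟩
  have h9 : padicValNat 2 q.den = 0 := by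
    apply padicValNat.eq_zero_of_not_dvd
    intro hd
    exact (Nat.not_even_iff_odd.mpr hden) (even_iff_two_dvd.mpr hd)
  have h10 : padicValInt 2 q.num = 0 := by omega
  rw [← Int.natAbs_odd, ← Nat.not_even_iff_odd]
  intro hev
  have h11 : 1 ≤ padicValNat 2 q.num.natAbs :=
    one_le_padicValNat_of_dvd (Int.natAbs_ne_zero.mpr (Rat.num_ne_zero.mpr hq))
      (even_iff_two_dvd.mp hev)
  have h12 : padicValNat 2 q.num.natAbs = 0 := h10
  omega

theorem exists_odd_scaling {G S : Type} [Group G] [MulAction G S] [Fintype S] {ι : S → S}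
    (w : S → ℚ) (hw : ∀ x, w (ι x) = - w x) (hw0 : ∀ x, w x ≠ 0)
    (hval : ∀ (g : G) (x : S), padicValRat 2 (w (g • x)) = padicValRat 2 (w x))
    (m : S → ℤ) (hm : m ≠ 0) (hmι : ∀ x, m (ι x) = - m x)
    (hrel : ∀ g : G, ∑ x, (m x : ℚ) * w (g • x) = 0) :
    ∃ (U : S → ℤ) (m' : S → ℤ), (∀ x, Odd (U x)) ∧ (∀ x, U (ι x) = - U x) ∧
      (∀ x, m' (ι x) = - m' x) ∧ m' ≠ 0 ∧ ∀ g : G, ∑ x, m' x * U (g • x) = 0 := by
  classical
  let e : S → ℤ := fun x => padicValRat 2 (w x)
  have heι : ∀ x, e (ι x) = e x := by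
    intro x
    show padicValRat 2 (w (ι x)) = padicValRat 2 (w x)
    rw [hw, padicValRat.neg]
  have heg : ∀ (g : G) x, e (g • x) = e x := hval
  let u : S → ℚ := fun x => w x * 2 ^ (- e x)
  have h20 : (2 : ℚ) ≠ 0 := two_ne_zero
  have hu0 : ∀ x, u x ≠ 0 := fun x => mul_ne_zero (hw0 x) (zpow_ne_zero _ h20)
  have huv : ∀ x, padicValRat 2 (u x) = 0 := by
    intro x
    show padicValRat 2 (w x * 2 ^ (- e x)) = 0
    rw [padicValRat.mul (hw0 x) (zpow_ne_zero _ h20)]
    have h1 : padicValRat 2 ((2 : ℚ) ^ (- e x)) = - e x := by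
      rw [padicValRat.zpow]
      have h2 : padicValRat 2 (2 : ℚ) = 1 := by
        have := padicValRat.self (p := 2) one_lt_two
        exact_mod_cast this
      rw [h2, mul_one]
    rw [h1]
    show e x + - e x = 0
    ring
  have huι : ∀ x, u (ι x) = - u x := by
    intro x
    show w (ι x) * 2 ^ (- e (ι x)) = - (w x * 2 ^ (- e x))
    rw [hw, heι]; ring
  let D' : S → ℕ := fun x => ∏ y ∈ univ.erase x, (u y).den
  let D : ℕ := ∏ y, (u y).den
  have hD : ∀ x, D = (u x).den * D' x := by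
    intro x
    show ∏ y, (u y).den = (u x).den * ∏ y ∈ univ.erase x, (u y).den
    rw [Finset.mul_prod_erase _ (fun y => (u y).den) (mem_univ x)]
  have hD0 : D ≠ 0 := Finset.prod_ne_zero_iff.mpr fun y _ => (u y).den_nz
  let U : S → ℤ := fun x => (u x).num * D' x
  have hUu : ∀ x, (U x : ℚ) = D * u x := by
    intro x
    show (((u x).num * (D' x : ℤ) : ℤ) : ℚ) = D * u x
    rw [hD x]
    push_cast
    have h4 : ((u x).den : ℚ) * u x = (u x).num := Rat.den_mul_eq_num (u x)
    rw [mul_assoc, mul_comm (D' x : ℚ), ← mul_assoc, h4]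
  have hDodd : ∀ x, Odd (D' x) := by
    intro x
    refine Finset.prod_induction _ Odd (fun a b => Odd.mul) odd_one fun y _ => ?_
    exact (odd_of_padicValRat (hu0 y) (huv y)).2
  have hUodd : ∀ x, Odd (U x) := by
    intro x
    refine Odd.mul (odd_of_padicValRat (hu0 x) (huv x)).1 ?_
    exact_mod_cast hDodd x
  have hDq : (D : ℚ) ≠ 0 := by exact_mod_cast hD0
  have hUι : ∀ x, U (ι x) = - U x := by
    intro x
    have h5 : (U (ι x) : ℚ) = ((- U x : ℤ) : ℚ) := by
      push_cast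
      rw [hUu, hUu, huι]; ring
    exact_mod_cast h5
  let E : ℕ := ∑ x, (e x).natAbs
  have hE : ∀ x, 0 ≤ e x + E := by
    intro x
    have h6 : (e x).natAbs ≤ E :=
      Finset.single_le_sum (f := fun x => (e x).natAbs) (fun _ _ => Nat.zero_le _) (mem_univ x)
    omega
  let a : S → ℕ := fun x => (e x + E).toNat
  have ha : ∀ x, ((a x : ℕ) : ℤ) = e x + E := fun x => Int.toNat_of_nonneg (hE x)
  have haι : ∀ x, a (ι x) = a x := by
    intro x
    show (e (ι x) + E).toNat = (e x + E).toNat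
    rw [heι]
  let m' : S → ℤ := fun x => m x * 2 ^ a x
  have hm' : ∀ x, (m' x : ℚ) = m x * 2 ^ (e x) * 2 ^ (E : ℤ) := by
    intro x
    show ((m x * 2 ^ a x : ℤ) : ℚ) = _
    push_cast
    rw [mul_assoc, ← zpow_add₀ h20, ← ha x, zpow_natCast]
  refine ⟨U, m', hUodd, hUι, ?_, ?_, ?_⟩
  · intro x
    show m (ι x) * 2 ^ a (ι x) = - (m x * 2 ^ a x)
    rw [hmι, haι]; ring
  · intro h
    apply hm
    funext x
    have h7 : m x * 2 ^ a x = 0 := congrFun h x
    exact (mul_eq_zero.mp h7).resolve_right (pow_ne_zero _ two_ne_zero)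
  · intro g
    have h8 : (((∑ x, m' x * U (g • x) : ℤ)) : ℚ) = 0 := by
      have h9 : (((∑ x, m' x * U (g • x) : ℤ)) : ℚ) =
          (2 : ℚ) ^ (E : ℤ) * D * ∑ x, (m x : ℚ) * w (g • x) := by
        rw [Int.cast_sum, Finset.mul_sum]
        refine Finset.sum_congr rfl fun x _ => ?_
        rw [Int.cast_mul, hm', hUu]
        have h10 : u (g • x) = w (g • x) * 2 ^ (- e x) := by
          show w (g • x) * 2 ^ (- e (g • x)) = _
          rw [heg]
        rw [h10, zpow_neg]
        have h11 : (2 : ℚ) ^ e x ≠ 0 := zpow_ne_zero _ h20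
        field_simp
      rw [h9, hrel g, mul_zero]
    exact_mod_cast h8

end Pool.Agent.Helper19.Disc
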